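import Pool.Agent.Lib.MP_06b9d2_bm.GMn

/-!
MP_06b9d2_nt (Maeda's conjecture): the multiplicities of the eigenvalues of the Hecke operators of
level one are bounded independently of the weight.
-/

open Matrix
open ModularForm
open IntermediateField
open scoped MatrixGroups

namespace Pool.Agent.Results.MP_06b9d2_nt.BoundedMultiplicity

/-- The space `S_k` of cusp forms of weight `k` for `SL(2, ℤ)`. -/
abbrev Cusp (k : ℤ) : Type :=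
  CuspForm ((⊤ : Subgroup SL(2, ℤ)).map (Matrix.SpecialLinearGroup.mapGL ℝ)) k

/-- `T` is the Hecke operator `T_n` on `S_k`. -/
def IsT (k : ℤ) (n : ℕ) (T : Cusp k →ₗ[ℂ] Cusp k) : Prop :=
  ∀ (f : Cusp k) (τ : UpperHalfPlane),
    (T f) τ = ∑ a ∈ n.divisors, ∑ b ∈ Finset.range (n / a),
      ((n : ℂ) ^ (k - 1) * ((n / a : ℕ) : ℂ) ^ (-k)) *
        f (UpperHalfPlane.ofComplex (((a : ℂ) * (τ : ℂ) + (b : ℂ)) / ((n / a : ℕ) : ℂ)))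

/-- The bound `64 n ^ 2` for odd `n`, `131 n ^ 4` for even `n`. -/
def bd (n : ℕ) : ℕ := if n % 2 = 1 then 64 * n ^ 2 else 131 * n ^ 4

/-- The field generated over `ℚ` by the numbers `a 1, a 2, …`. -/
noncomputable abbrev fieldOf (a : ℕ → ℂ) : IntermediateField ℚ ℂ :=
  IntermediateField.adjoin ℚ {x : ℂ | ∃ m, 1 ≤ m ∧ a m = x}

private theorem part1 (Γ : Subgroup (GL (Fin 2) ℝ)) (hΓ : Γ = 𝒮ℒ) [Γ.HasDetOne] (n : ℕ) (h2 : 2 ≤ n)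
    (h6 : ¬ 6 ∣ n) (k : ℤ) (hk : Even k) [Module.Finite ℂ (CuspForm Γ k)]
    (T : CuspForm Γ k →ₗ[ℂ] CuspForm Γ k)
    (hT : ∀ (f : CuspForm Γ k) (τ : UpperHalfPlane),
      T f τ = ∑ a ∈ n.divisors, ∑ b ∈ Finset.range (n / a),
        ((n : ℂ) ^ (k - 1) * ((n / a : ℕ) : ℂ) ^ (-k)) *
          f (UpperHalfPlane.ofComplex (((a : ℂ) * (τ : ℂ) + (b : ℂ)) / ((n / a : ℕ) : ℂ)))) :
    (∀ lam : ℂ, (LinearMap.charpoly T).rootMultiplicity lam ≤ bd n) ∧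
      Module.finrank ℂ (CuspForm Γ k) ≤ bd n * (LinearMap.charpoly T).roots.toFinset.card := by
  subst hΓ
  have : NeZero n := ⟨by omega⟩
  have H := Pool.Agent.Lib.MP_06b9d2_bm.kerB_bd n h2 h6
  exact ⟨fun lam => Pool.Agent.Lib.MP_06b9d2_bm.root_le H k hk T hT lam,
    Pool.Agent.Lib.MP_06b9d2_bm.dist_ge H k hk T hT⟩

private theorem part2 (Γ : Subgroup (GL (Fin 2) ℝ)) (hΓ : Γ = 𝒮ℒ) [Γ.HasDetOne] (n : ℕ) (h2 : 2 ≤ n)
    (h6 : ¬ 6 ∣ n) (k : ℤ) (hk : Even k) (T : ℕ → CuspForm Γ k →ₗ[ℂ] CuspForm Γ k)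
    (hT : ∀ m, 1 ≤ m → ∀ (f : CuspForm Γ k) (τ : UpperHalfPlane),
      T m f τ = ∑ a ∈ m.divisors, ∑ b ∈ Finset.range (m / a),
        ((m : ℂ) ^ (k - 1) * ((m / a : ℕ) : ℂ) ^ (-k)) *
          f (UpperHalfPlane.ofComplex (((a : ℂ) * (τ : ℂ) + (b : ℂ)) / ((m / a : ℕ) : ℂ))))
    (f : CuspForm Γ k) (hf : f ≠ 0) (a : ℕ → ℂ) (ha : ∀ m, 1 ≤ m → T m f = a m • f) :
    FiniteDimensional ℚ (fieldOf a) ∧
      Module.finrank ℚ (fieldOf a) ≤ bd n * Module.finrank ℚ ℚ⟮a n⟯ := by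
  subst hΓ
  exact Pool.Agent.Lib.MP_06b9d2_bm.fld_hecke (by omega) (Pool.Agent.Lib.MP_06b9d2_bm.kerB_bd n h2 h6)
    k hk T hT f hf a ha

private theorem part3 (P : MvPolynomial ℕ ℂ) (hv : P.vars.Nonempty) (hP : ∀ l ∈ P.vars, l.Prime)
    (h23 : 2 ∉ P.vars ∨ 3 ∉ P.vars) :
    ∃ B : ℕ, ∀ (Γ : Subgroup (GL (Fin 2) ℝ)) (_ : Γ = 𝒮ℒ) [Γ.HasDetOne] (k : ℤ), Even k →
      ∀ T : ℕ → CuspForm Γ k →ₗ[ℂ] CuspForm Γ k,
      (∀ l ∈ P.vars, ∀ (f : CuspForm Γ k) (τ : UpperHalfPlane),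
        T l f τ = ∑ a ∈ l.divisors, ∑ b ∈ Finset.range (l / a),
          ((l : ℂ) ^ (k - 1) * ((l / a : ℕ) : ℂ) ^ (-k)) *
            f (UpperHalfPlane.ofComplex (((a : ℂ) * (τ : ℂ) + (b : ℂ)) / ((l / a : ℕ) : ℂ)))) →
      ∀ (lam : ℂ) (r : ℕ) (f : Fin r → CuspForm Γ k) (a : Fin r → ℕ → ℂ), LinearIndependent ℂ f →
      (∀ i, ∀ l ∈ P.vars, T l (f i) = a i l • f i) → (∀ i, MvPolynomial.eval (a i) P = lam) →
      r ≤ B := by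
  obtain ⟨B, hB⟩ := Pool.Agent.Lib.MP_06b9d2_bm.poly_all P hv hP h23
  refine ⟨B, ?_⟩
  intro Γ hΓ _ k hk T hT lam r f a hf ha he
  subst hΓ
  exact hB k hk T hT lam r f hf a ha he

private theorem part4 (s : Finset ℕ) (c : ℕ → ℂ) (hs : (∀ n ∈ s, ¬ 2 ∣ n) ∨ ∀ n ∈ s, ¬ 3 ∣ n) (n₀ : ℕ)
    (hn₀ : n₀ ∈ s) (h2 : 2 ≤ n₀) (hc : c n₀ ≠ 0) :
    ∃ B : ℕ, ∀ (Γ : Subgroup (GL (Fin 2) ℝ)) (_ : Γ = 𝒮ℒ) [Γ.HasDetOne] (k : ℤ), Even k →
      ∀ T : ℕ → CuspForm Γ k →ₗ[ℂ] CuspForm Γ k,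
      (∀ n ∈ s, ∀ (f : CuspForm Γ k) (τ : UpperHalfPlane),
        T n f τ = ∑ a ∈ n.divisors, ∑ b ∈ Finset.range (n / a),
          ((n : ℂ) ^ (k - 1) * ((n / a : ℕ) : ℂ) ^ (-k)) *
            f (UpperHalfPlane.ofComplex (((a : ℂ) * (τ : ℂ) + (b : ℂ)) / ((n / a : ℕ) : ℂ)))) →
      ∀ lam : ℂ, Module.finrank ℂ
        (LinearMap.ker ((∑ n ∈ s, c n • T n) - lam • LinearMap.id)) ≤ B := by
  have hs' : (∀ n ∈ s, n % 2 = 1) ∨ ∀ n ∈ s, n % 3 ≠ 0 := by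
    rcases hs with h | h
    · exact Or.inl fun n hn => by have := h n hn; omega
    · exact Or.inr fun n hn => by have := h n hn; omega
  obtain ⟨B, hB⟩ := Pool.Agent.Lib.MP_06b9d2_bm.lin_all s c hs' n₀ hn₀ h2 hc
  refine ⟨B, ?_⟩
  intro Γ hΓ _ k hk T hT lam
  subst hΓ
  exact hB k hk T hT lam

private theorem part5 (n : ℕ) (hn : 2 ≤ n) : ∃ c : ℝ, 0 < c ∧
    ∀ (Γ : Subgroup (GL (Fin 2) ℝ)) (_ : Γ = 𝒮ℒ) [Γ.HasDetOne] (k : ℤ) (_ : Even k)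
      [Module.Finite ℂ (CuspForm Γ k)] (_ : Nontrivial (CuspForm Γ k))
      (T : CuspForm Γ k →ₗ[ℂ] CuspForm Γ k)
      (_ : ∀ (f : CuspForm Γ k) (τ : UpperHalfPlane),
        T f τ = ∑ a ∈ n.divisors, ∑ b ∈ Finset.range (n / a),
          ((n : ℂ) ^ (k - 1) * ((n / a : ℕ) : ℂ) ^ (-k)) *
            f (UpperHalfPlane.ofComplex (((a : ℂ) * (τ : ℂ) + (b : ℂ)) / ((n / a : ℕ) : ℂ)))),
      c * Real.sqrt k ≤ ((LinearMap.charpoly T).roots.toFinset.card : ℝ) := by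
  obtain ⟨c, hc, h⟩ := Pool.Agent.Lib.MP_06b9d2_nt.ME.main n hn
  refine ⟨c, hc, ?_⟩
  intro Γ hΓ _ k hk _ hS T hT
  subst hΓ
  exact h k hk T hT

/-- Level one, all even weights `k`; `F_{k,n}` is the characteristic polynomial of `T_n` on `S_k`.
* `n ≥ 2` not divisible by `6`: every root of `F_{k,n}` has multiplicity at most `bd n`, which does not
  depend on `k`, so `F_{k,n}` has at least `dim S_k / bd n` distinct roots; and for every common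
  eigenform `f` of the Hecke operators, with eigenvalues `a 1, a 2, …`, the field generated by all
  `a m` has degree at most `bd n` times the degree of `ℚ(a n)`.
* Every non-constant polynomial `P` with complex coefficients in variables indexed by primes, among
  which `2` or `3` does not occur, has a bound `B`, independent of `k` and of `lam`, such that
  at most `B` linearly independent eigenforms of weight `k` have eigenvalues with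
  `P(a l : l prime) = lam`.
* The same for the eigenspaces of a linear combination of the `T_n` with complex coefficients, all `n`
  odd or all `n` prime to `3`, in which some `T_n` with `n ≥ 2` occurs.
* For every `n ≥ 2` there is `c > 0` such that `F_{k,n}` has at least `c √k` distinct roots if
  `S_k ≠ 0`. -/
theorem result :
    (∀ n : ℕ, 2 ≤ n → ¬ 6 ∣ n → ∀ k : ℤ, Even k → ∀ [Module.Finite ℂ (Cusp k)]
      (T : Cusp k →ₗ[ℂ] Cusp k), IsT k n T →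
      (∀ lam : ℂ, (LinearMap.charpoly T).rootMultiplicity lam ≤ bd n) ∧
        Module.finrank ℂ (Cusp k) ≤ bd n * (LinearMap.charpoly T).roots.toFinset.card) ∧
    (∀ n : ℕ, 2 ≤ n → ¬ 6 ∣ n → ∀ k : ℤ, Even k →
      ∀ T : ℕ → Cusp k →ₗ[ℂ] Cusp k, (∀ m, 1 ≤ m → IsT k m (T m)) →
      ∀ (f : Cusp k) (a : ℕ → ℂ), f ≠ 0 → (∀ m, 1 ≤ m → T m f = a m • f) →
      FiniteDimensional ℚ (fieldOf a) ∧
        Module.finrank ℚ (fieldOf a) ≤ bd n * Module.finrank ℚ ℚ⟮a n⟯) ∧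
    (∀ P : MvPolynomial ℕ ℂ, P.vars.Nonempty → (∀ l ∈ P.vars, l.Prime) →
      (2 ∉ P.vars ∨ 3 ∉ P.vars) →
      ∃ B : ℕ, ∀ k : ℤ, Even k → ∀ T : ℕ → Cusp k →ₗ[ℂ] Cusp k,
      (∀ l ∈ P.vars, IsT k l (T l)) →
      ∀ (lam : ℂ) (r : ℕ) (f : Fin r → Cusp k) (a : Fin r → ℕ → ℂ), LinearIndependent ℂ f →
      (∀ i, ∀ l ∈ P.vars, T l (f i) = a i l • f i) → (∀ i, MvPolynomial.eval (a i) P = lam) →
      r ≤ B) ∧
    (∀ (s : Finset ℕ) (c : ℕ → ℂ), ((∀ n ∈ s, ¬ 2 ∣ n) ∨ ∀ n ∈ s, ¬ 3 ∣ n) →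
      (∃ n ∈ s, 2 ≤ n ∧ c n ≠ 0) →
      ∃ B : ℕ, ∀ k : ℤ, Even k → ∀ T : ℕ → Cusp k →ₗ[ℂ] Cusp k, (∀ n ∈ s, IsT k n (T n)) →
      ∀ lam : ℂ, Module.finrank ℂ
        (LinearMap.ker ((∑ n ∈ s, c n • T n) - lam • LinearMap.id)) ≤ B) ∧
    ∀ n : ℕ, 2 ≤ n → ∃ c : ℝ, 0 < c ∧ ∀ k : ℤ, Even k → ∀ [Module.Finite ℂ (Cusp k)],
      Nontrivial (Cusp k) → ∀ T : Cusp k →ₗ[ℂ] Cusp k, IsT k n T →
      c * Real.sqrt k ≤ ((LinearMap.charpoly T).roots.toFinset.card : ℝ) := by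
  have hG := (MonoidHom.range_eq_map (Matrix.SpecialLinearGroup.mapGL (n := Fin 2) (R := ℤ) ℝ)).symm
  refine ⟨?_, ?_, ?_, ?_, ?_⟩
  · intro n h2 h6 k hk _ T hT
    exact part1 _ hG n h2 h6 k hk T hT
  · intro n h2 h6 k hk T hT f a hf ha
    exact part2 _ hG n h2 h6 k hk T hT f hf a ha
  · intro P hv hP h23
    obtain ⟨B, hB⟩ := part3 P hv hP h23
    exact ⟨B, fun k hk T hT => hB _ hG k hk T hT⟩
  · rintro s c hs ⟨n, hn, h2, hc⟩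
    obtain ⟨B, hB⟩ := part4 s c hs n hn h2 hc
    exact ⟨B, fun k hk T hT => hB _ hG k hk T hT⟩
  · intro n hn
    obtain ⟨c, hc, h⟩ := part5 n hn
    refine ⟨c, hc, ?_⟩
    intro k hk _ hS T hT
    exact h _ hG k hk hS T hT

end Pool.Agent.Results.MP_06b9d2_nt.BoundedMultiplicity
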