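import Pool.Agent.Lib.MP_06b9d2_gr.FinG

/-!
MP_06b9d2_nt (Maeda's conjecture): the degrees of the eigenvalues of the Hecke operators of level one
tend to infinity with the weight; a positive proportion of them has degree at least `r`, and the Galois
groups contain elements for which a positive proportion of the eigenvalues lies in cycles of length
divisible by a given power of `2`.
-/

open Matrix
open ModularForm
open scoped MatrixGroups

namespace Pool.Agent.Results.MP_06b9d2_nt.LargeFactor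

/-- The space `S_k` of cusp forms of weight `k` for `SL(2, ℤ)`. -/
abbrev Cusp (k : ℤ) : Type :=
  CuspForm ((⊤ : Subgroup SL(2, ℤ)).map (Matrix.SpecialLinearGroup.mapGL ℝ)) k

/-- `T` is the Hecke operator `T_n` on `S_k`. -/
def IsT (k : ℤ) (n : ℕ) (T : Cusp k →ₗ[ℂ] Cusp k) : Prop :=
  ∀ (f : Cusp k) (τ : UpperHalfPlane),
    (T f) τ = ∑ a ∈ n.divisors, ∑ b ∈ Finset.range (n / a),
      ((n : ℂ) ^ (k - 1) * ((n / a : ℕ) : ℂ) ^ (-k)) *
        f (UpperHalfPlane.ofComplex (((a : ℂ) * (τ : ℂ) + (b : ℂ)) / ((n / a : ℕ) : ℂ)))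

/-- `F` is the characteristic polynomial `F_{k,n}` of the Hecke operator `T_n` on `S_k`. -/
def IsF (k : ℤ) (n : ℕ) (F : Polynomial ℚ) : Prop :=
  ∃ (_ : Module.Finite ℂ (Cusp k)) (T : Cusp k →ₗ[ℂ] Cusp k),
    IsT k n T ∧ F.map (algebraMap ℚ ℂ) = LinearMap.charpoly T

/-- The number of roots `α` of `F` in its splitting field which have degree at least `q` over `ℚ` and
lie in cycles of `σ` (an element of the Galois group of `F`) of length divisible by `q`. -/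
noncomputable def cyc (F : Polynomial ℚ) (σ : F.Gal) (q : ℕ) : ℕ :=
  Set.ncard {α : F.SplittingField | Polynomial.aeval α F = 0 ∧ q ≤ (minpoly ℚ α).natDegree ∧
    ∀ j : ℕ, (σ ^ j) α = α → q ∣ j}

/-- One of the following holds, where a prime is called odd in `n` if it divides `n` to an odd power:
* `n = l ^ i`, `i ≥ 1`, `l` a prime with `l ≡ 2, 4, 5, 7` modulo `9`, or `l ≡ 8, 17` modulo `27`,
  or `l ≡ 3, 5` modulo `8`, or `l ≡ 7` modulo `16`, or `l ≡ 15` modulo `32`;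
* `n ≡ 3` modulo `4` and no prime `≡ 31` modulo `32` is odd in `n`;
* `n` is odd, the number of primes `≡ 3` modulo `4` which are odd in `n` is `≡ 2` modulo `4`, and no
  prime `≡ 15` modulo `16` is odd in `n`;
* `n ≡ 5` modulo `8` and no prime `≡ 3` modulo `4` is odd in `n`;
* `3 ∤ n`, exactly one or two primes `≡ 2` modulo `3` are odd in `n`, none of them `≡ 26` modulo `27`. -/
def Good (n : ℕ) : Prop :=
  (∃ l i : ℕ, l.Prime ∧ 1 ≤ i ∧ n = l ^ i ∧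
        (l % 9 = 2 ∨ l % 9 = 4 ∨ l % 9 = 5 ∨ l % 9 = 7 ∨ l % 27 = 8 ∨ l % 27 = 17 ∨
          l % 8 = 3 ∨ l % 8 = 5 ∨ l % 16 = 7 ∨ l % 32 = 15)) ∨
      (n % 4 = 3 ∧ ∀ p ∈ n.primeFactors, p % 32 = 31 → n.factorization p % 2 = 0) ∨
      (n % 2 = 1 ∧
        (n.primeFactors.filter fun p => p % 4 = 3 ∧ n.factorization p % 2 = 1).card % 4 = 2 ∧
        ∀ p ∈ n.primeFactors, p % 16 = 15 → n.factorization p % 2 = 0) ∨
      (n % 8 = 5 ∧ ∀ p ∈ n.primeFactors, p % 4 = 3 → n.factorization p % 2 = 0) ∨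
      (n % 3 ≠ 0 ∧
        ((n.primeFactors.filter fun p => p % 3 = 2 ∧ n.factorization p % 2 = 1).card = 1 ∨
          (n.primeFactors.filter fun p => p % 3 = 2 ∧ n.factorization p % 2 = 1).card = 2) ∧
        ∀ p ∈ n.primeFactors, p % 27 = 26 → n.factorization p % 2 = 0)

private theorem hG : (⊤ : Subgroup SL(2, ℤ)).map (Matrix.SpecialLinearGroup.mapGL ℝ) = 𝒮ℒ :=
  (MonoidHom.range_eq_map _).symm

private theorem IsF.ne_zero {k : ℤ} {n : ℕ} {F : Polynomial ℚ} (h : IsF k n F) : F ≠ 0 := by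
  rintro rfl
  obtain ⟨_, T, -, hT⟩ := h
  rw [Polynomial.map_zero] at hT
  exact (LinearMap.charpoly_monic T).ne_zero hT.symm

private theorem cyc_eq {k : ℤ} {n : ℕ} {F : Polynomial ℚ} (h : IsF k n F) (σ : F.Gal) (q : ℕ) :
    cyc F σ q = Pool.Agent.Lib.MP_06b9d2_gr.Cy F σ q :=
  Pool.Agent.Lib.MP_06b9d2_gr.cy_eq F h.ne_zero σ q

/-- Level one, `k` even. `F_{k,n}` is the characteristic polynomial of `T_n` on `S_k`; `cyc F σ q` is the
number of its roots which have degree at least `q` over `ℚ` and lie in cycles of `σ ∈ Gal(F_{k,n})` of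
length divisible by `q`.
* For every `a` there is `C` such that for all `n` with `Good n` and all even `k ≥ C` there is an element
  `σ` of the Galois group of `F_{k,n}` for which at least `k / C` roots of `F_{k,n}` have degree at least
  `2 ^ a` and lie in cycles of `σ` of length divisible by `2 ^ a`.
* The same holds for every `n ≥ 2` which is not divisible by `6`, with `C` depending on `n` and `a`.
* Let `p ≥ 5` be a prime and `g` an irreducible factor of degree `r` of `F_{k₀,2}` modulo `p`. If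
  `k ≥ k₀ + (p + 1) (p - 3) / 2 + (p ^ 2 - 1) m` and `Good n` then for some `σ` at least `r (m + 1)` roots
  of `F_{k,n}` have degree at least `r` and lie in cycles of `σ` of length divisible by `r`.
* Let `p ≡ 7` modulo `8` be a prime, `x`, `y` odd with `x ^ 2 + p y ^ 2 = 2 ^ (h + 2)`, `h ≥ 1` minimal,
  `p ∤ y`, `p ∤ h`, and `r ≥ 1` minimal with `h ∣ p ^ r - 1` or `h ∣ p ^ r + 1`. If
  `k ≥ p (p + 1) / 2 + (p ^ 2 - 1) m` and `Good n` then for some `σ` at least `r (m + 1)` roots of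
  `F_{k,n}` have degree at least `r` and lie in cycles of `σ` of length divisible by `r`.
* In particular (`p = 100000011719`, `h = 476579`, `r = 238289`), for every even
  `k ≥ 5000001171950068673340` and `Good n`, for some `σ` at least `k / 10 ^ 17` roots of `F_{k,n}` have
  degree at least `238289` and lie in cycles of `σ` of length divisible by `238289`. -/
theorem result :
    (∀ a : ℕ, ∃ C : ℕ, ∀ n : ℕ, Good n → ∀ k : ℤ, Even k → (C : ℤ) ≤ k →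
      ∀ F : Polynomial ℚ, IsF k n F → ∃ σ : F.Gal, k ≤ (C : ℤ) * (cyc F σ (2 ^ a) : ℤ)) ∧
    (∀ a n : ℕ, 2 ≤ n → ¬ 6 ∣ n → ∃ C : ℕ, ∀ k : ℤ, Even k → (C : ℤ) ≤ k →
      ∀ F : Polynomial ℚ, IsF k n F → ∃ σ : F.Gal, k ≤ (C : ℤ) * (cyc F σ (2 ^ a) : ℤ)) ∧
    (∀ p : ℕ, p.Prime → 5 ≤ p → ∀ (k₀ : ℤ) (F₀ : Polynomial ℤ),
      IsF k₀ 2 (F₀.map (Int.castRingHom ℚ)) →
      ∀ g : Polynomial (ZMod p), Irreducible g → g ∣ F₀.map (Int.castRingHom (ZMod p)) →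
      ∀ n : ℕ, Good n → ∀ (m : ℕ) (k : ℤ), Even k →
      k₀ + ((p : ℤ) + 1) * (((p : ℤ) - 3) / 2) + ((p : ℤ) ^ 2 - 1) * m ≤ k →
      ∀ F : Polynomial ℚ, IsF k n F →
        ∃ σ : F.Gal, g.natDegree * (m + 1) ≤ cyc F σ g.natDegree) ∧
    (∀ p h r : ℕ, p.Prime → p % 8 = 7 → 1 ≤ h →
      ∀ x y : ℤ, Odd x → Odd y → x ^ 2 + p * y ^ 2 = 2 ^ (h + 2) → ¬ (p : ℤ) ∣ y →
      (∀ (h' : ℕ) (x' y' : ℤ), 1 ≤ h' → h' < h → Odd x' → Odd y' →
        x' ^ 2 + p * y' ^ 2 ≠ 2 ^ (h' + 2)) →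
      ¬ p ∣ h → 1 ≤ r → (∀ j, 1 ≤ j → j < r → ¬ h ∣ p ^ j - 1 ∧ ¬ h ∣ p ^ j + 1) →
      (h ∣ p ^ r - 1 ∨ h ∣ p ^ r + 1) →
      ∀ n : ℕ, Good n → ∀ (m : ℕ) (k : ℤ), Even k →
      (p : ℤ) * (p + 1) / 2 + ((p : ℤ) ^ 2 - 1) * m ≤ k →
      ∀ F : Polynomial ℚ, IsF k n F → ∃ σ : F.Gal, r * (m + 1) ≤ cyc F σ r) ∧
    (∀ n : ℕ, Good n → ∀ k : ℤ, Even k → 5000001171950068673340 ≤ k →
      ∀ F : Polynomial ℚ, IsF k n F →
        ∃ σ : F.Gal, k ≤ 100000000000000000 * (cyc F σ 238289 : ℤ)) := by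
  refine ⟨?_, ?_, ?_, ?_, ?_⟩
  · intro a
    obtain ⟨C, hC⟩ := Pool.Agent.Lib.MP_06b9d2_gr.fing_one a
    refine ⟨C, ?_⟩
    intro n hn k hk hk2 F hF
    have hF' := hF
    obtain ⟨_, T, hT, hP⟩ := hF
    obtain ⟨σ, hσ⟩ := hC n (Pool.Agent.Lib.MP_06b9d2_lf.ker n hn) k hk hk2 _ hG T hT F hP
    exact ⟨σ, by rw [cyc_eq hF']; exact hσ⟩
  · intro a n h2 h6
    obtain ⟨C, hC⟩ := Pool.Agent.Lib.MP_06b9d2_gr.fing_two a n h2 h6
    refine ⟨C, ?_⟩
    intro k hk hk2 F hF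
    have hF' := hF
    obtain ⟨_, T, hT, hP⟩ := hF
    obtain ⟨σ, hσ⟩ := hC k hk hk2 _ hG T hT F hP
    exact ⟨σ, by rw [cyc_eq hF']; exact hσ⟩
  · intro p hp h5 k₀ F₀ hF₀ g hg hgF n hn m k hk hk2 F hF
    have hF' := hF
    obtain ⟨_, T, hT, hP⟩ := hF
    obtain ⟨_, T₀, hT₀, hP₀⟩ := hF₀
    rw [Polynomial.map_map] at hP₀
    obtain ⟨σ, hσ⟩ := Pool.Agent.Lib.MP_06b9d2_gr.fing_three hp h5 k₀ _ hG T₀ hT₀ F₀ hP₀ g hg hgF n
      (Pool.Agent.Lib.MP_06b9d2_lf.ker n hn) m k hk hk2 T hT F hP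
    exact ⟨σ, by rw [cyc_eq hF']; exact hσ⟩
  · intro p h r hp h8 hh x y hx hy hxy hpy hmin hph hr0 hr hr1 n hn m k hk hk2 F hF
    have hF' := hF
    obtain ⟨_, T, hT, hP⟩ := hF
    obtain ⟨σ, hσ⟩ := Pool.Agent.Lib.MP_06b9d2_gr.fing_four hp h8 hh x y hx hy hxy hpy hmin hph hr0 hr hr1 n
      (Pool.Agent.Lib.MP_06b9d2_lf.ker n hn) m k hk hk2 _ hG T hT F hP
    exact ⟨σ, by rw [cyc_eq hF']; exact hσ⟩
  · intro n hn k hk hk2 F hF
    have hF' := hF
    obtain ⟨_, T, hT, hP⟩ := hF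
    obtain ⟨σ, hσ⟩ := Pool.Agent.Lib.MP_06b9d2_gr.fing_five n (Pool.Agent.Lib.MP_06b9d2_lf.ker n hn) k hk hk2 _
      hG T hT F hP
    exact ⟨σ, by rw [cyc_eq hF']; exact hσ⟩

/-- For `Good n` and even `k` the polynomial `F_{k,n}` exists and has integral coefficients. -/
theorem exists_F {n : ℕ} (hn : Good n) {k : ℤ} (hk : Even k) :
    ∃ F : Polynomial ℤ, F.Monic ∧ IsF k n (F.map (Int.castRingHom ℚ)) := by
  exact Pool.Agent.Lib.MP_06b9d2_gr.ex_F n (Pool.Agent.Lib.MP_06b9d2_lf.ker n hn) k hk _ hG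

end Pool.Agent.Results.MP_06b9d2_nt.LargeFactor
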