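import Pool.Agent.Lib.MP_06b9d2_tls.PrW
import Pool.Agent.Lib.MP_06b9d2_tls.PrW9
import Pool.Agent.Lib.MP_06b9d2_tls.Concl
import Pool.Agent.Lib.MP_06b9d2_tl2.PrL2
import Pool.Agent.Lib.MP_06b9d2_tln.Fin
import Pool.Agent.Lib.MP_06b9d2_tlm.Fin3

/-!
MP_06b9d2_nt (Maeda's conjecture): for every even weight `k` and every `n` in an explicit set which
contains 66 % of the integers up to `10 ^ 6` and all primes outside a set of density `5 / 72`, the
Hecke operator `T_n` on `S_k` (level one) has a simple spectrum and generates the Hecke algebra over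
`ℚ`; hence if `F_{k,m}` is irreducible for some `m`, then so is `F_{k,n}`, with the same Galois group.
-/

open Matrix
open ModularForm
open scoped MatrixGroups

namespace Pool.Agent.Results.MP_06b9d2_nt.SimpleSpectra

/-- `T_n` has one-dimensional eigenspaces -/
private theorem ker (n : ℕ) (h : (∃ l i : ℕ, l.Prime ∧ 1 ≤ i ∧ n = l ^ i ∧
        (l % 9 = 2 ∨ l % 9 = 4 ∨ l % 9 = 5 ∨ l % 9 = 7 ∨ l % 27 = 8 ∨ l % 27 = 17 ∨
          l % 8 = 3 ∨ l % 8 = 5 ∨ l % 16 = 7 ∨ l % 32 = 15)) ∨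
      (n % 4 = 3 ∧ ∀ p ∈ n.primeFactors, p % 32 = 31 → n.factorization p % 2 = 0) ∨
      (n % 2 = 1 ∧
        (n.primeFactors.filter fun p => p % 4 = 3 ∧ n.factorization p % 2 = 1).card % 4 = 2 ∧
        ∀ p ∈ n.primeFactors, p % 16 = 15 → n.factorization p % 2 = 0) ∨
      (n % 8 = 5 ∧ ∀ p ∈ n.primeFactors, p % 4 = 3 → n.factorization p % 2 = 0) ∨
      (n % 3 ≠ 0 ∧
        ((n.primeFactors.filter fun p => p % 3 = 2 ∧ n.factorization p % 2 = 1).card = 1 ∨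
          (n.primeFactors.filter fun p => p % 3 = 2 ∧ n.factorization p % 2 = 1).card = 2) ∧
        ∀ p ∈ n.primeFactors, p % 27 = 26 → n.factorization p % 2 = 0)) :
    1 ≤ n ∧ Pool.Agent.Lib.MP_06b9d2_tls.KerOne n := by
  rcases h with ⟨l, i, hl, hi, rfl, hc⟩ | ⟨h1, h2⟩ | ⟨h1, h2, h3⟩ | ⟨h1, h2⟩ | ⟨h1, h2, h3⟩
  · refine ⟨Nat.one_le_pow _ _ hl.pos, ?_⟩
    rcases hc with h | h | h | h | h | h | h | h | h | h
    · exact Pool.Agent.Lib.MP_06b9d2_tls.kerOne_ppow l hl (Or.inl h) i hi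
    · exact Pool.Agent.Lib.MP_06b9d2_tls.kerOne_ppow l hl (Or.inr (Or.inl h)) i hi
    · exact Pool.Agent.Lib.MP_06b9d2_tls.kerOne_ppow l hl (Or.inr (Or.inr (Or.inl h))) i hi
    · exact Pool.Agent.Lib.MP_06b9d2_tls.kerOne_ppow l hl (Or.inr (Or.inr (Or.inr h))) i hi
    · exact Pool.Agent.Lib.MP_06b9d2_tls.kerOne_ppow9 l hl (Or.inl h) i hi
    · exact Pool.Agent.Lib.MP_06b9d2_tls.kerOne_ppow9 l hl (Or.inr h) i hi
    · exact Pool.Agent.Lib.MP_06b9d2_tl2.kerOne_ppow2 l hl (Or.inl h) i hi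
    · exact Pool.Agent.Lib.MP_06b9d2_tl2.kerOne_ppow2 l hl (Or.inr (Or.inl h)) i hi
    · exact Pool.Agent.Lib.MP_06b9d2_tl2.kerOne_ppow2 l hl (Or.inr (Or.inr (Or.inl h))) i hi
    · exact Pool.Agent.Lib.MP_06b9d2_tl2.kerOne_ppow2 l hl (Or.inr (Or.inr (Or.inr h))) i hi
  · exact ⟨by omega, Pool.Agent.Lib.MP_06b9d2_tln.kerOne_odd n (Or.inl ⟨h1, h2⟩)⟩
  · exact ⟨by omega, Pool.Agent.Lib.MP_06b9d2_tln.kerOne_odd n (Or.inr (Or.inl ⟨h1, h2, h3⟩))⟩
  · refine ⟨by omega, Pool.Agent.Lib.MP_06b9d2_tln.kerOne_odd n (Or.inr (Or.inr ⟨h1, ?_⟩))⟩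
    unfold Pool.Agent.Lib.MP_06b9d2_tln.nu3
    rw [Finset.card_eq_zero, Finset.filter_eq_empty_iff]
    rintro p hp ⟨h3, h4⟩
    have h5 := h2 p hp h3
    omega
  · exact ⟨by omega, Pool.Agent.Lib.MP_06b9d2_tlm.kerOne_three n (by omega) h1 h2 h3⟩

/-- Let `n` be a natural number such that one of the following holds, where a prime is called odd in
`n` if it divides `n` to an odd power:
* `n = l ^ i`, `i ≥ 1`, `l` a prime with `l ≡ 2, 4, 5, 7` modulo `9`, or `l ≡ 8, 17` modulo `27`,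
  or `l ≡ 3, 5` modulo `8`, or `l ≡ 7` modulo `16`, or `l ≡ 15` modulo `32`;
* `n ≡ 3` modulo `4` and no prime `≡ 31` modulo `32` is odd in `n`;
* `n` is odd, the number of primes `≡ 3` modulo `4` which are odd in `n` is `≡ 2` modulo `4`, and no
  prime `≡ 15` modulo `16` is odd in `n`;
* `n ≡ 5` modulo `8` and no prime `≡ 3` modulo `4` is odd in `n`;
* `3 ∤ n`, exactly one or two primes `≡ 2` modulo `3` are odd in `n`, none of them `≡ 26` modulo `27`.

For every even `k` (level one) and the Hecke operator `T = T_n` on `S_k`: its characteristic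
polynomial `F_{k,n}` has integral coefficients and is squarefree over `ℚ`; `T` has `dim S_k` distinct
eigenvalues; every linear endomorphism of `S_k` commuting with `T` is a polynomial in `T`; every Hecke
operator `T_m` on `S_k` is a polynomial in `T` with rational coefficients, and if `F_{k,m}` is
irreducible over `ℚ` then so is `F_{k,n}`, and their Galois groups are isomorphic. -/
theorem result :
    ∀ n : ℕ, ((∃ l i : ℕ, l.Prime ∧ 1 ≤ i ∧ n = l ^ i ∧
        (l % 9 = 2 ∨ l % 9 = 4 ∨ l % 9 = 5 ∨ l % 9 = 7 ∨ l % 27 = 8 ∨ l % 27 = 17 ∨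
          l % 8 = 3 ∨ l % 8 = 5 ∨ l % 16 = 7 ∨ l % 32 = 15)) ∨
      (n % 4 = 3 ∧ ∀ p ∈ n.primeFactors, p % 32 = 31 → n.factorization p % 2 = 0) ∨
      (n % 2 = 1 ∧
        (n.primeFactors.filter fun p => p % 4 = 3 ∧ n.factorization p % 2 = 1).card % 4 = 2 ∧
        ∀ p ∈ n.primeFactors, p % 16 = 15 → n.factorization p % 2 = 0) ∨
      (n % 8 = 5 ∧ ∀ p ∈ n.primeFactors, p % 4 = 3 → n.factorization p % 2 = 0) ∨
      (n % 3 ≠ 0 ∧
        ((n.primeFactors.filter fun p => p % 3 = 2 ∧ n.factorization p % 2 = 1).card = 1 ∨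
          (n.primeFactors.filter fun p => p % 3 = 2 ∧ n.factorization p % 2 = 1).card = 2) ∧
        ∀ p ∈ n.primeFactors, p % 27 = 26 → n.factorization p % 2 = 0)) →
    ∀ (k : ℤ), Even k →
    ∀ [Module.Finite ℂ (CuspForm ((⊤ : Subgroup SL(2, ℤ)).map (Matrix.SpecialLinearGroup.mapGL ℝ)) k)],
    ∀ T : CuspForm ((⊤ : Subgroup SL(2, ℤ)).map (Matrix.SpecialLinearGroup.mapGL ℝ)) k →ₗ[ℂ]
          CuspForm ((⊤ : Subgroup SL(2, ℤ)).map (Matrix.SpecialLinearGroup.mapGL ℝ)) k,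
      (∀ (f : CuspForm ((⊤ : Subgroup SL(2, ℤ)).map (Matrix.SpecialLinearGroup.mapGL ℝ)) k)
          (τ : UpperHalfPlane),
        (T f) τ =
          ∑ a ∈ n.divisors, ∑ b ∈ Finset.range (n / a),
            ((n : ℂ) ^ (k - 1) * ((n / a : ℕ) : ℂ) ^ (-k)) *
              f (UpperHalfPlane.ofComplex
                  (((a : ℂ) * (τ : ℂ) + (b : ℂ)) / ((n / a : ℕ) : ℂ)))) →
      (∃ F : Polynomial ℤ, F.Monic ∧ F.map (Int.castRingHom ℂ) = LinearMap.charpoly T ∧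
          Squarefree (F.map (Int.castRingHom ℚ))) ∧
        (LinearMap.charpoly T).roots.toFinset.card = Module.finrank ℂ
          (CuspForm ((⊤ : Subgroup SL(2, ℤ)).map (Matrix.SpecialLinearGroup.mapGL ℝ)) k) ∧
        (∀ S : CuspForm ((⊤ : Subgroup SL(2, ℤ)).map (Matrix.SpecialLinearGroup.mapGL ℝ)) k →ₗ[ℂ]
            CuspForm ((⊤ : Subgroup SL(2, ℤ)).map (Matrix.SpecialLinearGroup.mapGL ℝ)) k,
          Commute S T → ∃ P : Polynomial ℂ, S = Polynomial.aeval T P) ∧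
        ∀ (m : ℕ)
          (T' : CuspForm ((⊤ : Subgroup SL(2, ℤ)).map (Matrix.SpecialLinearGroup.mapGL ℝ)) k →ₗ[ℂ]
            CuspForm ((⊤ : Subgroup SL(2, ℤ)).map (Matrix.SpecialLinearGroup.mapGL ℝ)) k), 1 ≤ m →
          (∀ (f : CuspForm ((⊤ : Subgroup SL(2, ℤ)).map (Matrix.SpecialLinearGroup.mapGL ℝ)) k)
              (τ : UpperHalfPlane),
            (T' f) τ =
              ∑ a ∈ m.divisors, ∑ b ∈ Finset.range (m / a),
                ((m : ℂ) ^ (k - 1) * ((m / a : ℕ) : ℂ) ^ (-k)) *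
                  f (UpperHalfPlane.ofComplex
                      (((a : ℂ) * (τ : ℂ) + (b : ℂ)) / ((m / a : ℕ) : ℂ)))) →
          (∃ P : Polynomial ℚ, T' = Polynomial.aeval T (P.map (algebraMap ℚ ℂ))) ∧
            ∀ G : Polynomial ℚ, G.map (algebraMap ℚ ℂ) = LinearMap.charpoly T' → Irreducible G →
              ∃ F : Polynomial ℚ, F.map (algebraMap ℚ ℂ) = LinearMap.charpoly T ∧
                Irreducible F ∧ Nonempty (F.Gal ≃* G.Gal) := by
  intro n hn k hk _ T hT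
  obtain ⟨h1, h2⟩ := ker n hn
  exact Pool.Agent.Lib.MP_06b9d2_tls.concl h1 h2 _ (MonoidHom.range_eq_map _).symm k hk T hT

end Pool.Agent.Results.MP_06b9d2_nt.SimpleSpectra
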