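import Pool.Agent.Lib.MP_06b9d2_trp.Main

/-!
MP_06b9d2_nt (Maeda's conjecture): for `k = c 3 ^ m - 2` and `k = c 3 ^ m + 4`, `c = 8, 10, 14, 16`, `m ≥ 2`, the characteristic
polynomial `F` of the Hecke operator `T_n` on `S_k` (level one), for `n = 2` and for every `n` such that `T_n` has a simple
spectrum on `S_k`, has exactly `dim S_k - 2` roots in `ℚ_[3]`, and the Galois group of `F` over `ℚ` contains a transposition.
-/

open Matrix
open ModularForm
open scoped MatrixGroups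

namespace Pool.Agent.Results.MP_06b9d2_nt.Transposition

attribute [local instance] Polynomial.Gal.splits_ℚ_ℂ

/-- `T` is given by the formula of the Hecke operator `T_n` in weight `k` -/
def IsHeckeOp (Γ : Subgroup (GL (Fin 2) ℝ)) [Γ.HasDetOne] (k : ℤ) (n : ℕ) (T : CuspForm Γ k →ₗ[ℂ] CuspForm Γ k) : Prop :=
  ∀ (f : CuspForm Γ k) (τ : UpperHalfPlane),
    T f τ = ∑ a ∈ n.divisors, ∑ b ∈ Finset.range (n / a),
      ((n : ℂ) ^ (k - 1) * ((n / a : ℕ) : ℂ) ^ (-k)) *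
        f (UpperHalfPlane.ofComplex (((a : ℂ) * (τ : ℂ) + (b : ℂ)) / ((n / a : ℕ) : ℂ)))

/-- the characteristic polynomial of `T` comes from a monic integral polynomial `F`, squarefree over `ℚ`, with exactly
`dim V - 2` roots in `ℚ_[3]`; the Galois group of `F` over `ℚ` contains an element acting on the complex roots as a
transposition; if `F` is irreducible over `ℚ` and `dim V` is prime, or if the Galois group acts primitively on the roots,
then it is the full symmetric group of the roots -/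
def HasTransposition {V : Type} [AddCommGroup V] [Module ℂ V] [Module.Finite ℂ V] (T : V →ₗ[ℂ] V) : Prop :=
  ∃ F : Polynomial ℤ, F.Monic ∧ F.map (Int.castRingHom ℂ) = LinearMap.charpoly T ∧
    Squarefree (F.map (Int.castRingHom ℚ)) ∧
    Multiset.card (F.map (Int.castRingHom ℚ_[3])).roots + 2 = Module.finrank ℂ V ∧
    (∃ σ : (F.map (Int.castRingHom ℚ)).Gal, (Polynomial.Gal.galActionHom (F.map (Int.castRingHom ℚ)) ℂ σ).IsSwap) ∧
    (Irreducible (F.map (Int.castRingHom ℚ)) → (Module.finrank ℂ V).Prime →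
      Function.Bijective (Polynomial.Gal.galActionHom (F.map (Int.castRingHom ℚ)) ℂ)) ∧
    (MulAction.IsPreprimitive (F.map (Int.castRingHom ℚ)).Gal ((F.map (Int.castRingHom ℚ)).rootSet ℂ) →
      Function.Bijective (Polynomial.Gal.galActionHom (F.map (Int.castRingHom ℚ)) ℂ))

private theorem aux (Γ : Subgroup (GL (Fin 2) ℝ)) (hΓ : Γ = 𝒮ℒ) [Γ.HasDetOne] (c m : ℕ)
    (hc : c = 8 ∨ c = 10 ∨ c = 14 ∨ c = 16) (hm : 2 ≤ m) (k : ℤ)
    (hk : k = (c : ℤ) * 3 ^ m - 2 ∨ k = (c : ℤ) * 3 ^ m + 4) [Module.Finite ℂ (CuspForm Γ k)]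
    (T2 : CuspForm Γ k →ₗ[ℂ] CuspForm Γ k) (hT2 : IsHeckeOp Γ k 2 T2) :
    HasTransposition T2 ∧ ∀ n : ℕ, 0 < n → ∀ T : CuspForm Γ k →ₗ[ℂ] CuspForm Γ k, IsHeckeOp Γ k n T →
      (LinearMap.charpoly T).roots.toFinset.card = Module.finrank ℂ (CuspForm Γ k) → HasTransposition T := by
  subst hΓ
  obtain ⟨R, rfl⟩ : ∃ R, m = R + 1 := ⟨m - 1, by omega⟩
  have hR : 1 ≤ R := by omega
  obtain ⟨N, a, ha, hN, hkN⟩ : ∃ N a : ℕ, a ≤ 1 ∧ N + 1 = c * 3 ^ R + 2 * a ∧ k = 3 * (N : ℤ) + 1 := by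
    have h1 : 1 ≤ c * 3 ^ R := Nat.mul_pos (by omega) (pow_pos (by norm_num) R)
    have h2 : ((c * 3 ^ R : ℕ) : ℤ) = (c : ℤ) * 3 ^ R := by push_cast; ring
    rcases hk with hk | hk
    · refine ⟨c * 3 ^ R - 1, 0, by omega, by omega, ?_⟩
      rw [hk, Nat.cast_sub h1, h2]
      push_cast
      ring
    · refine ⟨c * 3 ^ R + 1, 1, le_rfl, by omega, ?_⟩
      rw [hk, Nat.cast_add, h2]
      push_cast
      ring
  have hodd : N % 2 = 1 := by
    rcases hc with rfl | rfl | rfl | rfl <;> omega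
  have hkev : Even k := by
    rw [hkN, Int.even_iff]
    omega
  obtain ⟨F2, hF2m, hF2, hF2s, hF2c⟩ := Pool.Agent.Lib.MP_06b9d2_ssp.main k hkev T2 hT2
  constructor
  · exact Pool.Agent.Lib.MP_06b9d2_trp.main hN ha hR hc k hkN T2 hT2 T2 hT2 hF2c
  · intro n hn T hT hs
    haveI : NeZero n := ⟨by omega⟩
    exact Pool.Agent.Lib.MP_06b9d2_trp.main hN ha hR hc k hkN T2 hT2 T hT hs

/-- Let `c = 8, 10, 14, 16`, `m ≥ 2`, `k = c 3 ^ m - 2` or `k = c 3 ^ m + 4`. The characteristic polynomial of the Hecke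
operator `T_2` on `S_k` (level one), and the one of `T_n` for every `n ≥ 1` such that `T_n` has `dim S_k` distinct
eigenvalues on `S_k`, has the properties of `HasTransposition`. -/
theorem result :
    ∀ (c m : ℕ), (c = 8 ∨ c = 10 ∨ c = 14 ∨ c = 16) → 2 ≤ m →
    ∀ k : ℤ, (k = (c : ℤ) * 3 ^ m - 2 ∨ k = (c : ℤ) * 3 ^ m + 4) →
    ∀ [Module.Finite ℂ (CuspForm ((⊤ : Subgroup SL(2, ℤ)).map (Matrix.SpecialLinearGroup.mapGL ℝ)) k)],
    ∀ T2 : CuspForm ((⊤ : Subgroup SL(2, ℤ)).map (Matrix.SpecialLinearGroup.mapGL ℝ)) k →ₗ[ℂ]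
          CuspForm ((⊤ : Subgroup SL(2, ℤ)).map (Matrix.SpecialLinearGroup.mapGL ℝ)) k,
      IsHeckeOp ((⊤ : Subgroup SL(2, ℤ)).map (Matrix.SpecialLinearGroup.mapGL ℝ)) k 2 T2 →
      HasTransposition T2 ∧
      ∀ n : ℕ, 0 < n →
      ∀ T : CuspForm ((⊤ : Subgroup SL(2, ℤ)).map (Matrix.SpecialLinearGroup.mapGL ℝ)) k →ₗ[ℂ]
            CuspForm ((⊤ : Subgroup SL(2, ℤ)).map (Matrix.SpecialLinearGroup.mapGL ℝ)) k,
        IsHeckeOp ((⊤ : Subgroup SL(2, ℤ)).map (Matrix.SpecialLinearGroup.mapGL ℝ)) k n T →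
        (LinearMap.charpoly T).roots.toFinset.card = Module.finrank ℂ
          (CuspForm ((⊤ : Subgroup SL(2, ℤ)).map (Matrix.SpecialLinearGroup.mapGL ℝ)) k) →
        HasTransposition T := by
  intro c m hc hm k hk _ T2 hT2
  exact aux _ (MonoidHom.range_eq_map _).symm c m hc hm k hk T2 hT2

end Pool.Agent.Results.MP_06b9d2_nt.Transposition
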